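import Pool.Agent.H2.Acm1

open MvPolynomial RingTheory.Sequence Pool.Agent.H2.Acm Pool.Agent.H2.Sph

namespace Pool.Agent.Results.MP_71c7f5_ag.NoWLP

variable {K : Type} [Field K]

section tp
variable {B : Type} [CommRing B] [Algebra K B] (y : Fin 5 → B)

noncomputable def tp (K : Type) [Field K] [Algebra K B] : R K →ₐ[K] Polynomial B :=
  aeval fun i => Polynomial.X * Polynomial.C (y i)

lemma tp_X (i : Fin 5) : tp y K (X i) = Polynomial.X * Polynomial.C (y i) := aeval_X _ _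

lemma tp_c0 (g : R K) : (tp y K g).coeff 0 = algebraMap K B (constantCoeff g) := by
  induction g using MvPolynomial.induction_on with
  | C a => simp [tp]
  | add p q hp hq => simp [hp, hq]
  | mul_X p i _ => simp [tp_X]

lemma tp_J (f : R K) (hf : f ∈ J K) : ∃ b, tp y K f = Polynomial.X ^ 6 * b ∧
    b.coeff 0 ∈ Submodule.span K (Set.range fun p : Pr => mn y p.1.1 p.1.2) := by
  induction hf using Submodule.span_induction with
  | mem x hx =>
    obtain ⟨p, rfl⟩ := hx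
    refine ⟨Polynomial.C (mn y p.1.1 p.1.2), ?_, ?_⟩
    · simp only [mn, map_sub, map_mul, map_pow, tp_X]; ring
    · rw [Polynomial.coeff_C_zero]; exact Submodule.subset_span ⟨p, rfl⟩
  | zero => exact ⟨0, by simp, by simp⟩
  | add p q _ _ hp hq =>
    obtain ⟨b, h1, h2⟩ := hp
    obtain ⟨b', h1', h2'⟩ := hq
    exact ⟨b + b', by rw [map_add, h1, h1', mul_add], by
      rw [Polynomial.coeff_add]; exact add_mem h2 h2'⟩
  | smul g p _ hp =>
    obtain ⟨b, h1, h2⟩ := hp
    refine ⟨tp y K g * b, by rw [smul_eq_mul, map_mul, h1]; ring, ?_⟩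
    rw [Polynomial.mul_coeff_zero, tp_c0, ← Algebra.smul_def]
    exact Submodule.smul_mem _ _ h2

lemma tp_lin (a : Fin 5 → K) :
    tp y K (∑ i, a i • X i) = Polynomial.X * Polynomial.C (∑ i, a i • y i) := by
  simp only [map_sum, map_smul, tp_X, Finset.mul_sum, ← Polynomial.smul_C, mul_smul_comm]

end tp

noncomputable def cl (c : Fin 4 → K) : R K := ∑ i, c i • X i.succ
noncomputable def F (c : Fin 4 → K) : R K := ∑ i, c i • X i.castSucc ^ 5

lemma XF (c : Fin 4 → K) (j : Fin 4) : X j.succ * F c - cl c * X j.castSucc ^ 5 ∈ J K := by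
  have : X j.succ * F c - cl c * X j.castSucc ^ 5 = ∑ i, C (c i) * mn X i j := by
    simp only [F, cl, mn, smul_eq_C_mul, Fin.sum_univ_four]; ring
  rw [this]
  exact sum_mem fun i _ => Ideal.mul_mem_left _ _ (mn_mem i j)

lemma ex_pt (c : Fin 4 → K) (hc : c ≠ 0) : ∃ (pt : Fin 5 → K) (j : Fin 4),
    ∑ i, c i * pt i.succ = 0 ∧ ∑ i, c i * pt i.castSucc ^ 5 ≠ 0 ∧ pt j.succ ≠ 0 := by
  by_cases h3 : c 3 = 0
  swap
  · refine ⟨![0, 0, 0, 1, -c 2 / c 3], 2, ?_, ?_, ?_⟩ <;> simp [Fin.sum_univ_four, h3]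
    field_simp; ring
  by_cases h2 : c 2 = 0
  swap
  · refine ⟨![0, 0, 1, -c 1 / c 2, 0], 1, ?_, ?_, ?_⟩ <;> simp [Fin.sum_univ_four, h3, h2]
    field_simp; ring
  by_cases h1 : c 1 = 0
  swap
  · refine ⟨![0, 1, -c 0 / c 1, 0, 0], 0, ?_, ?_, ?_⟩ <;> simp [Fin.sum_univ_four, h3, h2, h1]
    field_simp; ring
  have h0 : c 0 ≠ 0 := fun h0 => hc (by funext i; fin_cases i <;> assumption)
  refine ⟨![1, 0, 1, 0, 0], 1, ?_, ?_, ?_⟩ <;> simp [Fin.sum_univ_four, h3, h2, h1, h0]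

lemma key (c : Fin 4 → K) (hc : c ≠ 0) (a : Fin 5 → K) (A B : R K)
    (h : F c - cl c * A - (∑ i, a i • X i) * B ∈ J K)
    (hB : ∀ j : Fin 4, ∃ k, X j.succ * B - cl c * k ∈ J K) : False := by
  obtain ⟨pt, j, h1, h2, h3⟩ := ex_pt c hc
  have tx := tp_X (K := K) pt
  have e1 : tp pt K (cl c) = 0 := by
    simp only [cl, map_sum, map_smul, tx, ← mul_smul_comm, Polynomial.smul_C, smul_eq_mul]
    rw [← Finset.mul_sum, ← map_sum, h1, map_zero, mul_zero]
  have e2 : tp pt K (F c) = Polynomial.X ^ 5 * Polynomial.C (∑ i, c i * pt i.castSucc ^ 5) := by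
    simp only [F, map_sum, map_smul, map_pow, tx, Finset.mul_sum, map_mul,
      Polynomial.smul_eq_C_mul]
    exact Finset.sum_congr rfl fun i _ => by ring
  obtain ⟨k, hk⟩ := hB j
  obtain ⟨b, hb, -⟩ := tp_J pt _ hk
  obtain ⟨b', hb', -⟩ := tp_J pt _ h
  simp only [map_sub, map_mul, e1, e2, tx, tp_lin, zero_mul, sub_zero] at hb hb'
  have h4 : Polynomial.X ^ 5 * (Polynomial.C (pt j.succ * ∑ i, c i * pt i.castSucc ^ 5) -
      Polynomial.X * (Polynomial.C (pt j.succ) * b' + Polynomial.C (∑ i, a i • pt i) * b)) = 0 := by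
    rw [map_mul]
    linear_combination Polynomial.C (pt j.succ) * hb' + Polynomial.C (∑ i, a i • pt i) * hb
  have h5 := (mul_eq_zero.1 h4).resolve_left (pow_ne_zero _ Polynomial.X_ne_zero)
  have h6 := congrArg (fun p => Polynomial.coeff p 0) h5
  simp only [Polynomial.coeff_sub, Polynomial.coeff_C_zero, Polynomial.mul_coeff_zero,
    Polynomial.coeff_X_zero, zero_mul, sub_zero, Polynomial.coeff_zero] at h6
  exact mul_ne_zero h3 h2 h6

lemma ex_lin {l : R K} (hl : l.IsHomogeneous 1) : ∃ a : Fin 5 → K, l = ∑ i, a i • X i := by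
  have hl' : l ∈ homogeneousSubmodule (Fin 5) K 1 := hl
  rw [homogeneousSubmodule_one_eq_span_X] at hl'
  obtain ⟨c, rfl⟩ := (Submodule.mem_span_range_iff_exists_fun K).1 hl'
  exact ⟨c, rfl⟩

lemma lin_hom (a : Fin 5 → K) : (∑ i, a i • X i : R K).IsHomogeneous 1 :=
  (homogeneousSubmodule (Fin 5) K 1).sum_mem fun i _ =>
    Submodule.smul_mem _ _ (isHomogeneous_X K i)

lemma lin_succ (a : Fin 5 → K) :
    (∑ i, a i • X i : R K) = C (a 0) * X 0 + cl fun i => a i.succ := by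
  rw [Fin.sum_univ_succ, smul_eq_C_mul, cl]

lemma cc_lin (a : Fin 5 → K) : constantCoeff (∑ i, a i • X i : R K) = 0 := by
  simp [smul_eq_C_mul]

lemma C_J {r : K} (h : C r ∈ J K) : r = 0 := by simpa using J_le_m _ h

lemma not_surj (a b d : Fin 5 → K)
    (hs : ∀ h : R K, h.IsHomogeneous 6 → ∃ f : R K, f.IsHomogeneous 5 ∧
      h - (∑ i, d i • X i) * f ∈ J K ⊔ Ideal.span {∑ i, a i • X i, ∑ i, b i • X i}) : False := by
  let M : (Fin 5 → K) →ₗ[K] (Fin 3 → K) := (Matrix.of ![a, b, d]).mulVecLin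
  have h1 : 2 ≤ Module.finrank K (LinearMap.ker M) := by
    have h2 := M.finrank_range_add_finrank_ker
    have h3 := (LinearMap.range M).finrank_le
    simp only [Module.finrank_fin_fun] at h2 h3
    omega
  obtain ⟨v, hv⟩ := exists_linearIndependent_of_le_finrank h1
  have hv' := hv.map' (LinearMap.ker M).subtype (Submodule.ker_subtype _)
  obtain ⟨g, hg⟩ := (Fintype.linearCombination K _).exists_leftInverse_of_injective
    (LinearMap.ker_eq_bot.2 hv'.fintypeLinearCombination_injective)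
  have hg' : ∀ k, g (v k).1 = Pi.single k 1 := fun k => by
    have := LinearMap.congr_fun hg (Pi.single k 1)
    simpa using this
  let y : Fin 5 → Polynomial K := fun i =>
    Polynomial.C ((v 0).1 i) + Polynomial.C ((v 1).1 i) * Polynomial.X
  have hy : ∀ w : Fin 5 → K, ∑ i, w i • y i = Polynomial.C (∑ i, w i * (v 0).1 i) +
      Polynomial.C (∑ i, w i * (v 1).1 i) * Polynomial.X := by
    intro w
    simp only [y, map_sum, map_mul, Finset.sum_mul, ← Finset.sum_add_distrib,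
      Polynomial.smul_eq_C_mul]
    exact Finset.sum_congr rfl fun i _ => by ring
  have hk : ∀ k r, ∑ i, ![a, b, d] r i * (v k).1 i = 0 := fun k r => congrFun (v k).2 r
  have h0 : ∀ r, tp y K (∑ i, ![a, b, d] r i • X i) = 0 := fun r => by
    rw [tp_lin, hy, hk, hk]; simp
  have hgs : ∀ k r, ∑ i, g (Pi.single i 1) r * (v k).1 i = (Pi.single k 1 : Fin 2 → K) r := by
    intro k r
    rw [← hg', LinearMap.pi_apply_eq_sum_univ g, Finset.sum_apply]
    refine Finset.sum_congr rfl fun i _ => ?_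
    rw [Pi.smul_apply, smul_eq_mul, mul_comm]
    rw [show (Pi.single i 1 : Fin 5 → K) = fun j => if i = j then 1 else 0 from
      funext fun j => by simp [Pi.single_apply, eq_comm]]
  have hU : tp y K (∑ i, g (Pi.single i 1) 0 • X i) = Polynomial.X := by
    rw [tp_lin, hy, hgs, hgs]; simp
  have hV : tp y K (∑ i, g (Pi.single i 1) 1 • X i) =
      Polynomial.X * Polynomial.C Polynomial.X := by
    rw [tp_lin, hy, hgs, hgs]; simp
  have hm : ∀ j : Fin 7, (Polynomial.X ^ (j : ℕ) : Polynomial K) ∈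
      Submodule.span K (Set.range fun p : Pr => mn y p.1.1 p.1.2) := by
    intro j
    obtain ⟨f, -, hf⟩ := hs ((∑ i, g (Pi.single i 1) 0 • X i) ^ (6 - (j : ℕ)) *
      (∑ i, g (Pi.single i 1) 1 • X i) ^ (j : ℕ)) (by
        have := ((lin_hom fun i => g (Pi.single i 1) 0).pow (6 - (j : ℕ))).mul
          ((lin_hom fun i => g (Pi.single i 1) 1).pow j)
        rwa [show 1 * (6 - (j : ℕ)) + 1 * j = 6 by omega] at this)
    obtain ⟨u, hu, w, hw, e⟩ := Submodule.mem_sup.1 hf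
    obtain ⟨s, t, rfl⟩ := Ideal.mem_span_pair.1 hw
    obtain ⟨z, hz, hz'⟩ := tp_J y u hu
    have e2 := congrArg (tp y K) e
    have k0 := h0 0
    have k1 := h0 1
    have k2 := h0 2
    simp only [Matrix.cons_val_zero, Matrix.cons_val_one, Matrix.cons_val] at k0 k1 k2
    simp only [map_add, map_sub, map_mul, map_pow, k0, k1, k2, hU, hV, hz, mul_zero, zero_mul,
      add_zero, sub_zero] at e2
    rw [mul_pow, ← mul_assoc, ← pow_add, show 6 - (j : ℕ) + j = 6 by omega] at e2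
    rw [mul_left_cancel₀ (pow_ne_zero _ Polynomial.X_ne_zero) e2, ← map_pow,
      Polynomial.coeff_C_zero] at hz'
    exact hz'
  have hli : LinearIndependent K fun j : Fin 7 => (Polynomial.X ^ (j : ℕ) : Polynomial K) := by
    have := (Polynomial.basisMonomials K).linearIndependent.comp (fun j : Fin 7 => (j : ℕ))
      Fin.val_injective
    convert this using 2
    simp [Polynomial.X_pow_eq_monomial]
  have : Module.Finite K (Submodule.span K (Set.range fun p : Pr => mn y p.1.1 p.1.2)) :=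
    Module.Finite.span_of_finite K (Set.finite_range _)
  have h7 := (LinearIndependent.of_comp (v := fun j : Fin 7 => (⟨_, hm j⟩ : Submodule.span K _))
    (Submodule.subtype _) hli).fintype_card_le_finrank
  have h8 := h7.trans (finrank_range_le_card _)
  revert h8
  decide

lemma not_max (a b d : Fin 5 → K)
    (hr : IsWeaklyRegular (R K ⧸ J K) [(∑ i, a i • X i : R K), ∑ i, b i • X i]) :
    ¬ MaxRank (J K ⊔ Ideal.span {∑ i, a i • X i, ∑ i, b i • X i}) (∑ i, d i • X i) 5 6 := by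
  obtain ⟨r1, r2⟩ := (Pool.Agent.H2.CM.reg_iff _ _ _).1 hr
  rintro (hi | hs)
  swap
  · exact not_surj a b d hs
  have ha := lin_succ a
  have hb := lin_succ b
  have hcl := cc_lin a
  generalize (∑ i, a i • X i : R K) = l1 at *
  generalize hl2 : (∑ i, b i • X i : R K) = l2 at *
  have XF' : ∀ c w : Fin 4 → K, cl w * F c - cl c * F w ∈ J K := fun c w => by
    have : cl w * F c - cl c * F w = ∑ j, C (w j) * (X j.succ * F c - cl c * X j.castSucc ^ 5) := by
      conv_lhs => rw [cl, show F w = ∑ i, w i • X i.castSucc ^ 5 from rfl]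
      simp only [smul_eq_C_mul, Fin.sum_univ_four]; ring
    rw [this]
    exact sum_mem fun j _ => Ideal.mul_mem_left _ _ (XF c j)
  by_cases h0 : a 0 = 0 ∧ b 0 = 0
  · rw [h0.1, map_zero, zero_mul, zero_add] at ha
    rw [h0.2, map_zero, zero_mul, zero_add] at hb
    have hc : (fun i : Fin 4 => a i.succ) ≠ 0 := fun h => by
      rw [h] at ha
      exact one_ne_zero (C_J (r1 (C 1) (by simp [ha, cl])))
    obtain ⟨k, hk⟩ := r2 _ _ (by rw [ha, hb]; exact XF' _ _)
    exact key _ hc 0 k 0 (by simpa [← ha] using hk) fun j => ⟨0, by simp⟩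
  obtain ⟨γ, δ, h1⟩ : ∃ γ δ : K, γ * a 0 + δ * b 0 = 1 := by
    by_cases h : a 0 = 0
    · exact ⟨0, (b 0)⁻¹, by rw [inv_mul_cancel₀ fun h' => h0 ⟨h, h'⟩]; ring⟩
    · exact ⟨(a 0)⁻¹, 0, by rw [inv_mul_cancel₀ h]; ring⟩
  have h1' : (C γ * C (a 0) + C δ * C (b 0) : R K) = 1 := by
    rw [← map_mul, ← map_mul, ← map_add, h1, map_one]
  let c : Fin 4 → K := fun i => a 0 * b i.succ - b 0 * a i.succ
  let w : Fin 4 → K := fun i => γ * a i.succ + δ * b i.succ
  have hc : cl c = C (a 0) * l2 - C (b 0) * l1 := by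
    rw [ha, hb]
    simp only [cl, c, smul_eq_C_mul, Fin.sum_univ_four, map_sub, map_mul]; ring
  have hw : X 0 + cl w = C γ * l1 + C δ * l2 := by
    rw [ha, hb]
    simp only [cl, w, smul_eq_C_mul, Fin.sum_univ_four, map_add, map_mul]
    linear_combination (-X 0) * h1'
  have r3 : ∀ g h, (X 0 + cl w) * g - cl c * h ∈ J K → ∃ k, g - cl c * k ∈ J K := by
    intro g h hg
    rw [hw, hc] at hg
    obtain ⟨k, hk⟩ := r2 (C δ * g - C (a 0) * h) (-C γ * g - C (b 0) * h) (by convert hg using 1; ring)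
    have hk2 := r1 (l2 * k + C γ * g + C (b 0) * h) (by
      convert sub_mem hg (Ideal.mul_mem_left _ l2 hk) using 1; ring)
    refine ⟨-k, ?_⟩
    rw [hc]
    convert add_mem (Ideal.mul_mem_left _ (C (b 0)) hk) (Ideal.mul_mem_left _ (C (a 0)) hk2) using 1
    linear_combination (-g) * h1'
  have hc0 : c ≠ 0 := by
    intro h
    rw [h] at hc
    have e : (C (a 0) * l2 - C (b 0) * l1 : R K) = 0 := by rw [← hc]; simp [cl]
    obtain ⟨k, hk⟩ := r2 (C (a 0)) (C (b 0)) (by
      rw [show l2 * C (a 0) - l1 * C (b 0) = 0 by linear_combination e]; exact zero_mem _)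
    have ka : a 0 = 0 := by simpa [hcl] using J_le_m _ hk
    have kb : b 0 = 0 := C_J (r1 (C (b 0)) (by
      rw [ka, map_zero] at e
      rw [show l1 * C (b 0) = 0 by linear_combination -e]; exact zero_mem _))
    exact h0 ⟨ka, kb⟩
  have m1 : l1 ∈ J K ⊔ Ideal.span {l1, l2} := Ideal.mem_sup_right (Ideal.subset_span (by simp))
  have m2 : l2 ∈ J K ⊔ Ideal.span {l1, l2} := Ideal.mem_sup_right (Ideal.subset_span (by simp))
  have mc : cl c ∈ J K ⊔ Ideal.span {l1, l2} := by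
    rw [hc]; exact sub_mem (Ideal.mul_mem_left _ _ m2) (Ideal.mul_mem_left _ _ m1)
  have me : X 0 + cl w ∈ J K ⊔ Ideal.span {l1, l2} := by
    rw [hw]; exact add_mem (Ideal.mul_mem_left _ _ m1) (Ideal.mul_mem_left _ _ m2)
  have mF : ∀ u, cl u * F c ∈ J K ⊔ Ideal.span {l1, l2} := fun u => by
    rw [show cl u * F c = (cl u * F c - cl c * F u) + cl c * F u by ring]
    exact add_mem (Ideal.mem_sup_left (XF' c u)) (Ideal.mul_mem_right _ _ mc)
  have hF : (F c).IsHomogeneous 5 :=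
    (homogeneousSubmodule (Fin 5) K 5).sum_mem fun i _ =>
      Submodule.smul_mem _ _ ((isHomogeneous_X K _).pow 5)
  have h2 := hi _ hF (by
    rw [lin_succ, show (C (d 0) * X 0 + cl fun i => d i.succ) * F c =
      C (d 0) * ((X 0 + cl w) * F c - cl w * F c) + (cl fun i => d i.succ) * F c by ring]
    exact add_mem (Ideal.mul_mem_left _ _ (sub_mem (Ideal.mul_mem_right _ _ me) (mF w))) (mF _))
  obtain ⟨u, hu, z, hz, e⟩ := Submodule.mem_sup.1 h2
  obtain ⟨s, t, rfl⟩ := Ideal.mem_span_pair.1 hz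
  have h3 : F c - cl c * (t * C γ - s * C δ) - (X 0 + cl w) * (s * C (a 0) + t * C (b 0)) ∈ J K := by
    convert hu using 1
    rw [hc, hw, ← e]
    linear_combination (-s * l1 - t * l2) * h1'
  refine key c hc0 (Fin.cons 1 w) _ _ (by rw [lin_succ]; simpa using h3) fun j => r3 _
    (X j.castSucc ^ 5 - X j.succ * (t * C γ - s * C δ)) ?_
  convert sub_mem (XF c j) (Ideal.mul_mem_left _ (X j.succ) h3) using 1
  ring

theorem result (K : Type) [Field K] : ∃ I : Ideal (MvPolynomial (Fin 5) K),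
    (∃ s : Set (MvPolynomial (Fin 5) K), (∀ p ∈ s, ∃ d, p.IsHomogeneous d) ∧ I = Ideal.span s) ∧
    I.IsPrime ∧ ringKrullDim (MvPolynomial (Fin 5) K ⧸ I) = 2 ∧ IsCM I ∧
    IsRegular (MvPolynomial (Fin 5) K ⧸ I) [(X 0 : MvPolynomial (Fin 5) K), X 4] ∧
    ∀ l1 l2 : MvPolynomial (Fin 5) K, l1.IsHomogeneous 1 → l2.IsHomogeneous 1 →
      IsRegular (MvPolynomial (Fin 5) K ⧸ I) [l1, l2] →
      ¬ WLP (I ⊔ Ideal.span {l1, l2}) ∧ ¬ SLP (I ⊔ Ideal.span {l1, l2}) := by
  refine ⟨J K, ⟨_, ?_, rfl⟩, J_prime, dim_eq, ⟨[X 0, X 4], ?_, reg04, dim_eq.symm⟩, reg04, ?_⟩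
  · rintro _ ⟨p, rfl⟩
    exact ⟨6, (((isHomogeneous_X K _).pow 5).mul (isHomogeneous_X K _)).sub
      (((isHomogeneous_X K _).pow 5).mul (isHomogeneous_X K _))⟩
  · intro r hr
    simp only [List.mem_cons, List.not_mem_nil, or_false] at hr
    rcases hr with rfl | rfl <;> exact Ideal.subset_span ⟨_, rfl⟩
  · intro l1 l2 h1 h2 hr
    obtain ⟨a, rfl⟩ := ex_lin h1
    obtain ⟨b, rfl⟩ := ex_lin h2
    constructor
    · rintro ⟨l, hl, h⟩
      obtain ⟨d, rfl⟩ := ex_lin hl
      exact not_max a b d hr.1 (h 5)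
    · rintro ⟨l, hl, h⟩
      obtain ⟨d, rfl⟩ := ex_lin hl
      exact not_max a b d hr.1 (by simpa only [pow_one] using h 5 1 le_rfl)

end Pool.Agent.Results.MP_71c7f5_ag.NoWLP
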